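import Pool.Agent.Y659.MPS.Stm

/-!
Project Y659-MPS, job Fin2
-/

set_option autoImplicit false
set_option linter.unusedVariables false

namespace Pool.Agent.Y71.MPS

open Matrix
open Pool.Agent.Y659.MPS

theorem pow_inv_pow {D : ℕ} {X Xi : Matrix (Fin D) (Fin D) ℂ} (h : X * Xi = 1) (h' : Xi * X = 1)
    (n : ℕ) : X ^ n * Xi ^ n = 1 := by
  have hc : Commute X Xi := by
    unfold Commute SemiconjBy
    rw [h, h']
  rw [← hc.mul_pow, h, one_pow]

/-- the dead letters at the multiples of the period -/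
theorem per {D : ℕ} {x y : Matrix (Fin D) (Fin D) ℂ} {p q : ℕ}
    {la lb : ℕ → Matrix (Fin D) (Fin D) ℂ} (hI : Inv x y p q la lb) (hq : 1 ≤ q)
    (hla0 : la 0 = x) (hlb0 : lb 0 = y) (j : ℕ) (hj : 1 ≤ j) (hjp : j ≤ p) (hd : q + 1 ∣ j) :
    la (p + 1 - j) = y ∧ la (p - j) = x ∧ (j < p → la j = x) := by
  have hqj : q + 1 ≤ j := Nat.le_of_dvd hj hd
  have hqp : q < p := by omega
  obtain ⟨-, h, -⟩ := hI
  obtain ⟨h1, h2, h3⟩ := h hqp
  obtain ⟨l, rfl⟩ := hd
  have hl : 1 ≤ l := by
    rcases Nat.eq_zero_or_pos l with h | h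
    · rw [h, mul_zero] at hj
      omega
    · exact h
  have key : ∀ l, 1 ≤ l → (q + 1) * l ≤ p → la (p + 1 - (q + 1) * l) = y ∧
      la (p - (q + 1) * l) = x := by
    intro l hl
    induction l, hl using Nat.le_induction with
    | base =>
      intro _
      rw [mul_one]
      constructor
      · have h4 := h3 0 (by omega)
        rw [hlb0, add_zero] at h4
        rw [← h4]
        congr 1
        omega
      · rw [← h2]
        congr 1
    | succ l hl ih =>
      intro hle
      have hmul : (q + 1) * (l + 1) = (q + 1) * l + (q + 1) := by ring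
      have hge : q + 1 ≤ (q + 1) * l := Nat.le_mul_of_pos_right _ hl
      obtain ⟨i1, i2⟩ := ih (by omega)
      constructor
      · rw [← i1]
        have h4 := h1 (p + 1 - (q + 1) * (l + 1)) (by omega)
        rw [← h4]
        congr 1
        omega
      · rw [← i2]
        have h4 := h1 (p - (q + 1) * (l + 1)) (by omega)
        rw [← h4]
        congr 1
        omega
  have key2 : ∀ l, (q + 1) * l < p → la ((q + 1) * l) = x := by
    intro l
    induction l with
    | zero =>
      intro _
      rw [mul_zero]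
      exact hla0
    | succ l ih =>
      intro hlt
      have hmul : (q + 1) * (l + 1) = (q + 1) * l + q + 1 := by ring
      rw [hmul, h1 _ (by omega)]
      exact ih (by omega)
  exact ⟨(key l hl hjp).1, (key l hl hjp).2, key2 l⟩

/-- Fin2 -/
theorem Fin2 : St_Fin2 := by
  intro D W X Xi x y m p q c cxy cyy α β la lb hXXi hXiX hxy hp hq hL hI hR hβ hα hxmx hymy
  obtain ⟨hnt, hαp, hrel⟩ := hR
  have hpx : ∀ n, X ^ n * Xi ^ n = 1 := pow_inv_pow hXXi hXiX
  have hpx' : ∀ n, Xi ^ n * X ^ n = 1 := pow_inv_pow hXiX hXXi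
  have xxm : x * x * m = 0 := by
    have h := (hL.ha 0 hp).2.1
    rwa [hL.la0 hp, pow_zero, mul_one] at h
  have mxx : m * x * x = 0 := by
    have h := (hL.ha 0 hp).2.2
    rwa [hL.la0 hp, pow_zero, mul_one] at h
  have yym : y * y * m = 0 := by
    have h := (hL.hb 0 hq).2.1
    rwa [hL.lb0 hq, pow_zero, mul_one] at h
  have myy : m * y * y = 0 := by
    have h := (hL.hb 0 hq).2.2
    rwa [hL.lb0 hq, pow_zero, mul_one] at h
  have hper := per hI hq (hL.la0 hp) (hL.lb0 hq)
  -- other form of the terms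
  have hA : ∀ j, 1 ≤ j → j ≤ p → X ^ j * x * m * Xi ^ (j - 1) =
      Xi ^ (p - j) * (m * x * X ^ (p + 1 - j)) := by
    intro j hj hjp
    have e1 : X ^ j = Xi ^ (p - j) * X ^ p := by
      have : X ^ p = X ^ (p - j) * X ^ j := by
        rw [← pow_add]
        congr 1
        omega
      rw [this, ← mul_assoc, hpx', one_mul]
    have e2 : X ^ p * Xi ^ (j - 1) = X ^ (p + 1 - j) := by
      have : X ^ p = X ^ (p + 1 - j) * X ^ (j - 1) := by
        rw [← pow_add]
        congr 1
        omega
      rw [this, mul_assoc, hpx, mul_one]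
    calc X ^ j * x * m * Xi ^ (j - 1) = Xi ^ (p - j) * (X ^ p * x * m) * Xi ^ (j - 1) := by
          rw [e1]
          simp only [mul_assoc]
      _ = Xi ^ (p - j) * (m * x * X ^ p) * Xi ^ (j - 1) := by rw [hL.cx]
      _ = Xi ^ (p - j) * (m * x * (X ^ p * Xi ^ (j - 1))) := by simp only [mul_assoc]
      _ = _ := by rw [e2]
  have hβ0 : ∑ j ∈ Finset.Icc 1 q, β j • (X ^ j * y * m * Xi ^ (j - 1)) = 0 := by
    refine Finset.sum_eq_zero fun j hj => ?_
    rw [Finset.mem_Icc] at hj
    rw [hβ j hj.1 hj.2, zero_smul]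
  rw [hβ0, add_zero] at hrel
  -- support of α
  have hsup : ∀ j, 1 ≤ j → j ≤ p → α j ≠ 0 → q + 1 ∣ j ∧ j < p := by
    intro j hj hjp h
    refine ⟨by_contra fun hn => h (hα j hj hjp hn), lt_of_le_of_ne hjp fun hn => h ?_⟩
    rw [hn, hαp]
  -- step 1
  have hc : c = 0 := by
    have h1 := congrArg (fun M => M * y) hrel
    beta_reduce at h1
    rw [add_mul, add_mul, add_mul, Finset.sum_mul, zero_mul] at h1
    have h2 : ∑ j ∈ Finset.Icc 1 p, α j • (X ^ j * x * m * Xi ^ (j - 1)) * y = 0 := by
      refine Finset.sum_eq_zero fun j hj => ?_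
      rw [Finset.mem_Icc] at hj
      by_cases h0 : α j = 0
      · rw [h0, zero_smul, zero_mul]
      · obtain ⟨hd, hlt⟩ := hsup j hj.1 hj.2 h0
        have hge : q + 1 ≤ j := Nat.le_of_dvd hj.1 hd
        have h3 := (hL.ha (p + 1 - j) (by omega)).2.2
        rw [(hper j hj.1 hj.2 hd).1] at h3
        rw [hA j hj.1 hj.2, smul_mul_assoc, mul_assoc, h3, mul_zero, smul_zero]
    have h3 : cxy • (x * m * y) * y = 0 := by
      rw [smul_mul_assoc]
      have : x * m * y * y = x * (m * y * y) := by simp only [mul_assoc]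
      rw [this, myy, mul_zero, smul_zero]
    have h4 : cyy • (y * m * y) * y = 0 := by
      rw [smul_mul_assoc]
      have : y * m * y * y = y * (m * y * y) := by simp only [mul_assoc]
      rw [this, myy, mul_zero, smul_zero]
    rw [h2, h3, h4, add_zero, add_zero, add_zero, smul_mul_assoc] at h1
    have h5 : X * m * x * y = X * (m * x) * X := by
      have h6 : y = X - x := by rw [← hxy, add_sub_cancel_left]
      have h7 : X * m * x * x = X * (m * x * x) := by simp only [mul_assoc]
      rw [h6, mul_sub, h7, mxx, mul_zero, sub_zero]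
      simp only [mul_assoc]
    rw [h5] at h1
    by_contra hc0
    have h6 : X * (m * x) * X = 0 := (smul_eq_zero.1 h1).resolve_left hc0
    have h7 : m * x = 0 := by
      have h8 : Xi * (X * (m * x) * X) * Xi = m * x := by
        calc Xi * (X * (m * x) * X) * Xi = (Xi * X) * (m * x) * (X * Xi) := by
              simp only [mul_assoc]
          _ = m * x := by rw [hXiX, hXXi, one_mul, mul_one]
      rw [← h8, h6, mul_zero, zero_mul]
    apply hxmx
    rw [mul_assoc, h7, mul_zero]
  rw [hc, zero_smul, zero_add] at hrel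
  -- step 2
  have hcyy : cyy = 0 := by
    have h1 := congrArg (fun M => x * M) hrel
    beta_reduce at h1
    rw [mul_add, mul_add, Finset.mul_sum, mul_zero] at h1
    have h2 : ∑ j ∈ Finset.Icc 1 p, x * α j • (X ^ j * x * m * Xi ^ (j - 1)) = 0 := by
      refine Finset.sum_eq_zero fun j hj => ?_
      rw [Finset.mem_Icc] at hj
      by_cases h0 : α j = 0
      · rw [h0, zero_smul, mul_zero]
      · obtain ⟨hd, hlt⟩ := hsup j hj.1 hj.2 h0
        have h3 := (hL.ha j hlt).2.1
        rw [(hper j hj.1 hj.2 hd).2.2 hlt] at h3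
        have h4 : x * (X ^ j * x * m * Xi ^ (j - 1)) = (x * X ^ j * x * m) * Xi ^ (j - 1) := by
          simp only [mul_assoc]
        rw [mul_smul_comm, h4, h3, zero_mul, smul_zero]
    have h3 : x * cxy • (x * m * y) = 0 := by
      have : x * (x * m * y) = x * x * m * y := by simp only [mul_assoc]
      rw [mul_smul_comm, this, xxm, zero_mul, smul_zero]
    rw [h2, h3, add_zero, zero_add, mul_smul_comm] at h1
    have h4 : cyy • (X * (y * m * y)) = 0 := by
      have h5 : y * (y * m * y) = 0 := by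
        have : y * (y * m * y) = y * y * m * y := by simp only [mul_assoc]
        rw [this, yym, zero_mul]
      rw [← hxy, add_mul, h5, add_zero, h1]
    by_contra hc0
    have h6 : X * (y * m * y) = 0 := (smul_eq_zero.1 h4).resolve_left hc0
    apply hymy
    have h7 : Xi * (X * (y * m * y)) = y * m * y := by
      rw [← mul_assoc, hXiX, one_mul]
    rw [← h7, h6, mul_zero]
  rw [hcyy, zero_smul, add_zero] at hrel
  -- step 3
  have hα0 : ∀ j, 1 ≤ j → j ≤ p → α j = 0 := by
    by_contra hne
    push Not at hne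
    obtain ⟨j0, hj01, hj0p, hj0⟩ := hne
    -- the largest index
    obtain ⟨j, hjS, hjmax⟩ := ((Finset.Icc 1 p).filter fun j => α j ≠ 0).exists_max_image
      (fun j => j) ⟨j0, by simp [hj01, hj0p, hj0]⟩
    rw [Finset.mem_filter, Finset.mem_Icc] at hjS
    obtain ⟨⟨hj1, hjp⟩, hαj⟩ := hjS
    obtain ⟨hdj, hjlt⟩ := hsup j hj1 hjp hαj
    have h1 := congrArg (fun M => x * X ^ (p - j) * M) hrel
    beta_reduce at h1
    rw [mul_add, Finset.mul_sum, mul_zero] at h1
    have h2 : x * X ^ (p - j) * cxy • (x * m * y) = 0 := by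
      have h3 := (hL.ha (p - j) (by omega)).2.1
      rw [(hper j hj1 hjp hdj).2.1] at h3
      have h4 : x * X ^ (p - j) * (x * m * y) = (x * X ^ (p - j) * x * m) * y := by
        simp only [mul_assoc]
      rw [mul_smul_comm, h4, h3, zero_mul, smul_zero]
    have h3 : ∑ i ∈ Finset.Icc 1 p, x * X ^ (p - j) * α i • (X ^ i * x * m * Xi ^ (i - 1)) =
        x * X ^ (p - j) * α j • (X ^ j * x * m * Xi ^ (j - 1)) := by
      refine Finset.sum_eq_single j (fun i hi hij => ?_) (fun h => ?_)
      · rw [Finset.mem_Icc] at hi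
        by_cases h0 : α i = 0
        · rw [h0, zero_smul, mul_zero]
        · obtain ⟨hdi, hilt⟩ := hsup i hi.1 hi.2 h0
          have hle : i ≤ j := hjmax i (by
            rw [Finset.mem_filter, Finset.mem_Icc]
            exact ⟨hi, h0⟩)
          have hlt : i < j := lt_of_le_of_ne hle hij
          have hd : q + 1 ∣ j - i := Nat.dvd_sub hdj hdi
          have h4 := (hL.ha (p - (j - i)) (by omega)).2.1
          rw [(hper (j - i) (by omega) (by omega) hd).2.1] at h4
          have h5 : x * X ^ (p - j) * (X ^ i * x * m * Xi ^ (i - 1)) =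
              (x * X ^ (p - (j - i)) * x * m) * Xi ^ (i - 1) := by
            have h6 : p - (j - i) = (p - j) + i := by omega
            rw [h6, pow_add]
            simp only [mul_assoc]
          rw [mul_smul_comm, h5, h4, zero_mul, smul_zero]
      · exact absurd (Finset.mem_Icc.2 ⟨hj1, hjp⟩) h
    have h4 : x * X ^ (p - j) * (X ^ j * x * m * Xi ^ (j - 1)) = x * m * x * X ^ (p + 1 - j) := by
      have h5 : X ^ (p - j) * Xi ^ (p - j) = 1 := hpx _
      rw [hA j hj1 hjp]
      calc x * X ^ (p - j) * (Xi ^ (p - j) * (m * x * X ^ (p + 1 - j))) =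
            x * (X ^ (p - j) * Xi ^ (p - j)) * (m * x * X ^ (p + 1 - j)) := by
            simp only [mul_assoc]
        _ = _ := by
          rw [h5, mul_one]
          simp only [mul_assoc]
    rw [h2, h3, zero_add, mul_smul_comm, h4] at h1
    have h5 : x * m * x * X ^ (p + 1 - j) = 0 := (smul_eq_zero.1 h1).resolve_left hαj
    apply hxmx
    have h6 : x * m * x * X ^ (p + 1 - j) * Xi ^ (p + 1 - j) = x * m * x := by
      rw [mul_assoc (x * m * x), hpx, mul_one]
    rw [← h6, h5, zero_mul]
  have hsum0 : ∑ j ∈ Finset.Icc 1 p, α j • (X ^ j * x * m * Xi ^ (j - 1)) = 0 := by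
    refine Finset.sum_eq_zero fun j hj => ?_
    rw [Finset.mem_Icc] at hj
    rw [hα0 j hj.1 hj.2, zero_smul]
  rw [hsum0, add_zero] at hrel
  rcases hnt with h | h | h | ⟨j, h1, h2, h3⟩ | ⟨j, h1, h2, h3⟩
  · exact absurd hc h
  · exact (smul_eq_zero.1 hrel).resolve_left h
  · exact absurd hcyy h
  · exact absurd (hα0 j h1 h2) h3
  · exact absurd (hβ j h1 h2) h3

end Pool.Agent.Y71.MPS
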